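import Pool.Agent.Lib.MP_d71b33_lc_h91.RA
import Pool.Agent.Lib.MP_d71b33_lc_h28.GR
import Pool.Agent.Lib.MP_d71b33_lc_h46.NE

/-!
# The T-structures: neighbours, floods, existence (MP_d71b33_lc, task RX)
-/

namespace Pool.Agent.Bfly

open Set

variable {n : ℕ}

namespace RX

/-! ### chains -/

theorem chain_trans {W : Type*} {H : SimpleGraph W} {F P : Set W} {R r s : ℕ} {x y z : W}
    (h : Chain H F P R r x y) (h' : Chain H F P R s y z) : Chain H F P R (r + s) x z := by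
  induction h' with
  | refl hx => exact h
  | step h' hyz hz ih => exact Chain.step (ih h) hyz hz

theorem chain_left {W : Type*} {H : SimpleGraph W} {F P : Set W} {R r : ℕ} {x y : W}
    (h : Chain H F P R r x y) : x ∈ P := by
  induction h with
  | refl hx => exact hx
  | step h hyz hz ih => exact ih

theorem chain_right {W : Type*} {H : SimpleGraph W} {F P : Set W} {R r : ℕ} {x y : W}
    (h : Chain H F P R r x y) : y ∈ P := by
  cases h with
  | refl hx => exact hx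
  | step h hyz hz => exact hz

theorem chain_single {W : Type*} {H : SimpleGraph W} {F P : Set W} {R : ℕ} {x y : W}
    (hx : x ∈ P) (hy : y ∈ P) (h : Near H F R x y) : Chain H F P R 1 x y :=
  Chain.step (Chain.refl hx) h hy

theorem chain_symm {W : Type*} {H : SimpleGraph W} {F P : Set W} {R r : ℕ} {x y : W}
    (h : Chain H F P R r x y) : Chain H F P R r y x := by
  induction h with
  | refl hx => exact Chain.refl hx
  | step h hyz hz ih =>
    have h1 := chain_trans (chain_single hz (chain_right h) hyz.symm) ih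
    rwa [Nat.add_comm] at h1

/-- the chain along a sequence of nodes -/
theorem chain_seq {W : Type*} {H : SimpleGraph W} {F P : Set W} {R : ℕ} (f : ℕ → W) {p q : ℕ}
    (hpq : p ≤ q) (hP : ∀ k, p ≤ k → k ≤ q → f k ∈ P)
    (hN : ∀ k, p ≤ k → k < q → Near H F R (f k) (f (k + 1))) :
    Chain H F P R (q - p) (f p) (f q) := by
  induction q, hpq using Nat.le_induction with
  | base =>
    rw [Nat.sub_self]
    exact Chain.refl (hP p le_rfl le_rfl)
  | succ q hq ih =>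
    rw [show q + 1 - p = (q - p) + 1 by omega]
    exact Chain.step (ih (fun k h1 h2 => hP k h1 (by omega)) (fun k h1 h2 => hN k h1 (by omega)))
      (hN q hq (by omega)) (hP (q + 1) (by omega) le_rfl)

end RX

namespace Sys

variable (S : Sys n)

/-- the prescribed role bit of the digit `d` in the T-structure of `Q`, row `w` -/
def rho (Q : Core n) (w : Rw n) (d : ℕ) : Bool := bit w (S.lev (S.zs Q) + (d - S.tw Q))

/-- rows which are changed inside the T-structure in the prescribed way -/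
theorem InR_of {Q : Core n} (hQ : Q ∈ S.cores) {w x z : Rw n} {p q : ℕ} (hx : S.InR Q w x)
    (hpq : p ≤ q) (hp : S.it Q ≤ p) (hq : q ≤ S.ib Q) (hz : AgOut (S.lev p) (S.lev q) z x)
    (hd : ∀ d, p ≤ d → d < q → bit z (S.rb d) = S.rho Q w d ∧
      bit z (S.sb d) = decide (d = S.mkd Q)) : S.InR Q w z := by
  obtain ⟨h1, h2, h3⟩ := hx
  have ha := S.zone_arith hQ
  have hib : S.ib Q ≤ S.m := ha.2.2.2.2.2.1
  refine ⟨?_, ?_, ?_⟩
  · exact (hz.mono (S.lev_mono hp (by omega)) (S.lev_mono hq hib)).trans h1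
  · intro d hd1 hd2
    by_cases hdp : p ≤ d ∧ d < q
    · exact (hd d hdp.1 hdp.2).2
    · rw [← h2 d hd1 hd2]
      exact hz.bit (S.sb_out (by omega) (by omega) (by omega) (by omega))
  · intro j hj
    by_cases hdp : p ≤ S.tw Q + j ∧ S.tw Q + j < q
    · rw [(hd _ hdp.1 hdp.2).1]
      unfold rho
      rw [Nat.add_sub_cancel_left]
    · rw [← h3 j hj]
      exact hz.bit (S.rb_out (by omega) (by omega) (by omega) (by omega))

/-- the row written by a complete run -/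
theorem InR_full {Q : Core n} (hQ : Q ∈ S.cores) {w z : Rw n}
    (hz : AgOut (S.lev (S.it Q)) (S.lev (S.ib Q)) z w)
    (hd : ∀ d, S.it Q ≤ d → d < S.ib Q → bit z (S.rb d) = S.rho Q w d ∧
      bit z (S.sb d) = decide (d = S.mkd Q)) : S.InR Q w z := by
  have ha := S.zone_arith hQ
  refine ⟨hz, fun d h1 h2 => (hd d h1 h2).2, ?_⟩
  intro j hj
  rw [(hd _ (by omega) (by omega)).1]
  unfold rho
  rw [Nat.add_sub_cancel_left]

/-- sites of the T-structure are relay sites -/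
theorem mem_PR {Q : Core n} (hQ : Q ∈ S.cores) {u : Node n} (hu : S.inZ Q u.1)
    (hsp : S.special Q u) {x : Rw n} (hx : S.InR Q u.1 x) {k : ℕ} (hk : S.it Q ≤ k)
    (hk' : k ≤ S.ib Q) : nd x (S.lev k) ∈ S.PR u := by
  have ha := S.zone_arith hQ
  refine ⟨Q, hQ, hu, k, hk, hk', S.nd_lev x (by omega), ?_, Or.inl hsp⟩
  rw [nd_fst]
  exact hx

/-- a run downwards inside the T-structure -/
theorem down_R {Q : Core n} (hQ : Q ∈ S.cores) {w x : Rw n} (hx : S.InR Q w x) {k l : ℕ}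
    (hk : S.it Q ≤ k) (hkl : k ≤ l) (hl : l ≤ S.ib Q) :
    ∃ X : ℕ → Rw n, X k = x ∧ (∀ t, k ≤ t → t ≤ l → S.InR Q w (X t)) ∧
      (∀ t, k ≤ t → t < l → AgOut (S.lev t) (S.lev (t + 1)) (X t) (X (t + 1))) ∧
      (∀ s t, k ≤ s → s ≤ t → t ≤ l → ∀ P ∈ S.cores, S.mem P (X t) t → S.mem P (X s) s) := by
  have ha := S.zone_arith hQ
  obtain ⟨X, Y, h1, _, h3, h4, h5⟩ := S.run_down x x k l hkl (by omega) (S.rho Q w)
    (fun d => decide (d = S.mkd Q))
  refine ⟨X, h1, ?_, fun t ht1 ht2 => (h4 t ht1 ht2).1,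
    fun s t hs hst ht P hP => (h5 s t hs hst ht P hP).1⟩
  intro t ht1 ht2
  obtain ⟨h6, _, _, h7⟩ := h3 t ht1 ht2
  exact S.InR_of hQ hx ht1 hk (by omega) h6 (fun d hd1 hd2 => ⟨(h7 d hd1 hd2).1, (h7 d hd1 hd2).2.1⟩)

/-- a run upwards inside the T-structure, simultaneously for two rows -/
theorem up_R {Q : Core n} (hQ : Q ∈ S.cores) {w x y : Rw n} (hx : S.InR Q w x) (hy : S.InR Q w y)
    {k l : ℕ} (hk : S.it Q ≤ k) (hkl : k ≤ l) (hl : l ≤ S.ib Q) :
    ∃ X Y : ℕ → Rw n, X l = x ∧ Y l = y ∧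
      (∀ t, k ≤ t → t ≤ l → S.InR Q w (X t) ∧ S.InR Q w (Y t)) ∧
      (∀ j : Fin n, S.lev k ≤ j.val → j.val < S.lev l → X k j = Y k j) ∧
      (∀ t, k ≤ t → t < l → AgOut (S.lev t) (S.lev (t + 1)) (X t) (X (t + 1)) ∧
        AgOut (S.lev t) (S.lev (t + 1)) (Y t) (Y (t + 1))) ∧
      (∀ s t, k ≤ s → s ≤ t → t ≤ l → ∀ P ∈ S.cores, (S.mem P (X s) s → S.mem P (X t) t) ∧
        (S.mem P (Y s) s → S.mem P (Y t) t)) := by
  have ha := S.zone_arith hQ
  obtain ⟨X, Y, h1, h2, h3, h4, h5⟩ := S.run_up x y k l hkl (by omega) (S.rho Q w)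
    (fun d => decide (d = S.mkd Q))
  refine ⟨X, Y, h1, h2, ?_, fun j hj1 hj2 => (h3 k le_rfl hkl).2.2.1 j hj1 hj2, h4, h5⟩
  intro t ht1 ht2
  obtain ⟨h6, h7, _, h8⟩ := h3 t ht1 ht2
  exact ⟨S.InR_of hQ hx ht2 (by omega) hl h6
      (fun d hd1 hd2 => ⟨(h8 d hd1 hd2).1, (h8 d hd1 hd2).2.1⟩),
    S.InR_of hQ hy ht2 (by omega) hl h7
      (fun d hd1 hd2 => ⟨(h8 d hd1 hd2).2.2.1, (h8 d hd1 hd2).2.2.2⟩)⟩

/-- the free sites of a T-structure representing a row are connected -/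
theorem flood_R {Q : Core n} (hQ : Q ∈ S.cores) {u : Node n} (hu : S.inZ Q u.1)
    (hsp : S.special Q u) {x y : Rw n} {k l : ℕ} (hx : S.InR Q u.1 x) (hy : S.InR Q u.1 y)
    (hk : S.it Q ≤ k) (hk' : k ≤ S.ib Q) (hl : S.it Q ≤ l) (hl' : l ≤ S.ib Q)
    (hfx : S.free x k) (hfy : S.free y l) :
    ∃ r ≤ 4 * (S.ib Q - S.it Q), Chain (butterfly n) S.F (S.PR u) (2 * S.g) r
      (nd x (S.lev k)) (nd y (S.lev l)) := by
  have ha := S.zone_arith hQ
  have hib : S.ib Q ≤ S.m := ha.2.2.2.2.2.1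
  -- runs down to `ib`
  obtain ⟨X, hX1, hX2, hX3, hX4⟩ := S.down_R hQ hx hk hk' le_rfl
  obtain ⟨Y, hY1, hY2, hY3, hY4⟩ := S.down_R hQ hy hl hl' le_rfl
  -- the double run up to `it`
  obtain ⟨X', Y', h1, h2, h3, h4, h5, h6⟩ := S.up_R hQ (hX2 _ hk' le_rfl) (hY2 _ hl' le_rfl)
    (k := S.it Q) (l := S.ib Q) le_rfl (by omega) le_rfl
  have hfX : ∀ t, k ≤ t → t ≤ S.ib Q → S.free (X t) t := by
    intro t ht1 ht2 P hP hm
    have := hX4 k t le_rfl ht1 ht2 P hP hm
    rw [hX1] at this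
    exact hfx P hP this
  have hfY : ∀ t, l ≤ t → t ≤ S.ib Q → S.free (Y t) t := by
    intro t ht1 ht2 P hP hm
    have := hY4 l t le_rfl ht1 ht2 P hP hm
    rw [hY1] at this
    exact hfy P hP this
  have hfX' : ∀ t, S.it Q ≤ t → t ≤ S.ib Q → S.free (X' t) t := by
    intro t ht1 ht2 P hP hm
    have := (h6 t (S.ib Q) ht1 ht2 le_rfl P hP).1 hm
    rw [h1] at this
    exact hfX _ hk' le_rfl P hP this
  have hfY' : ∀ t, S.it Q ≤ t → t ≤ S.ib Q → S.free (Y' t) t := by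
    intro t ht1 ht2 P hP hm
    have := (h6 t (S.ib Q) ht1 ht2 le_rfl P hP).2 hm
    rw [h2] at this
    exact hfY _ hl' le_rfl P hP this
  have hXY : X' (S.it Q) = Y' (S.it Q) := by
    have h7 := (h3 (S.it Q) le_rfl (by omega)).1.1
    have h8 := (h3 (S.it Q) le_rfl (by omega)).2.1
    exact AgOut.ext (h7.trans h8.symm) h4
  -- the four chains
  have c1 : Chain (butterfly n) S.F (S.PR u) (2 * S.g) (S.ib Q - k)
      (nd (X k) (S.lev k)) (nd (X (S.ib Q)) (S.lev (S.ib Q))) :=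
    RX.chain_seq (fun t => nd (X t) (S.lev t)) hk'
      (fun t ht1 ht2 => S.mem_PR hQ hu hsp (hX2 t ht1 ht2) (by omega) (by omega))
      (fun t ht1 ht2 => S.near_cross (by omega) (hfX t ht1 (by omega)) (hfX (t + 1) (by omega)
        (by omega)) (hX3 t ht1 ht2))
  have c2 : Chain (butterfly n) S.F (S.PR u) (2 * S.g) (S.ib Q - l)
      (nd (Y l) (S.lev l)) (nd (Y (S.ib Q)) (S.lev (S.ib Q))) :=
    RX.chain_seq (fun t => nd (Y t) (S.lev t)) hl'
      (fun t ht1 ht2 => S.mem_PR hQ hu hsp (hY2 t ht1 ht2) (by omega) (by omega))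
      (fun t ht1 ht2 => S.near_cross (by omega) (hfY t ht1 (by omega)) (hfY (t + 1) (by omega)
        (by omega)) (hY3 t ht1 ht2))
  have c3 : Chain (butterfly n) S.F (S.PR u) (2 * S.g) (S.ib Q - S.it Q)
      (nd (X' (S.it Q)) (S.lev (S.it Q))) (nd (X' (S.ib Q)) (S.lev (S.ib Q))) :=
    RX.chain_seq (fun t => nd (X' t) (S.lev t)) (by omega)
      (fun t ht1 ht2 => S.mem_PR hQ hu hsp (h3 t ht1 ht2).1 (by omega) (by omega))
      (fun t ht1 ht2 => S.near_cross (by omega) (hfX' t ht1 (by omega)) (hfX' (t + 1) (by omega)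
        (by omega)) (h5 t ht1 ht2).1)
  have c4 : Chain (butterfly n) S.F (S.PR u) (2 * S.g) (S.ib Q - S.it Q)
      (nd (Y' (S.it Q)) (S.lev (S.it Q))) (nd (Y' (S.ib Q)) (S.lev (S.ib Q))) :=
    RX.chain_seq (fun t => nd (Y' t) (S.lev t)) (by omega)
      (fun t ht1 ht2 => S.mem_PR hQ hu hsp (h3 t ht1 ht2).2 (by omega) (by omega))
      (fun t ht1 ht2 => S.near_cross (by omega) (hfY' t ht1 (by omega)) (hfY' (t + 1) (by omega)
        (by omega)) (h5 t ht1 ht2).2)
  rw [hX1] at c1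
  rw [hY1] at c2
  rw [h1] at c3
  rw [h2, ← hXY] at c4
  refine ⟨_, ?_, RX.chain_trans (RX.chain_trans (RX.chain_trans c1 (RX.chain_symm c3)) c4)
    (RX.chain_symm c2)⟩
  omega

/-- existence of free sites in the T-structure -/
theorem exists_R {Q : Core n} (hQ : Q ∈ S.cores) {v : Node n} (hv : S.hosted Q v) {w : Rw n}
    (hw : S.inZ Q w) {k : ℕ} (hk : S.it Q ≤ k) (hk' : k ≤ S.ib Q) :
    ∃ x, S.InR Q w x ∧ S.free x k := by
  have ha := S.zone_arith hQ
  obtain ⟨hv1, hv2, hv3, hv4⟩ := hv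
  -- a first run from `it` to `ib` starting with the row `w`
  obtain ⟨A, _, hA1, _, hA3, _, _⟩ := S.run_down w w (S.it Q) (S.ib Q) (by omega) (by omega)
    (S.rho Q w) (fun d => decide (d = S.mkd Q))
  have hA : S.InR Q w (A (S.ib Q)) := by
    obtain ⟨h6, _, _, h7⟩ := hA3 (S.ib Q) (by omega) le_rfl
    exact S.InR_full hQ h6 (fun d hd1 hd2 => ⟨(h7 d hd1 hd2).1, (h7 d hd1 hd2).2.1⟩)
  obtain ⟨X, _, _, _, hX3, _, _, hX6⟩ := S.up_R hQ hA hA (k := S.it Q) (l := S.ib Q) le_rfl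
    (by omega) le_rfl
  obtain ⟨Y, hY1, hY2, _, hY4⟩ := S.down_R hQ (hX3 (S.it Q) le_rfl (by omega)).1
    (k := S.it Q) (l := k) le_rfl hk (by omega)
  refine ⟨Y k, hY2 k hk le_rfl, ?_⟩
  intro P hP hm
  have hm1 := hY4 (S.it Q) k le_rfl hk le_rfl P hP hm
  rw [hY1] at hm1
  have hm2 := (hX6 (S.it Q) (S.ib Q) le_rfl (by omega) le_rfl P hP).1 hm1
  have hs : P.s ≤ S.it Q := hm1.1
  have he : S.ib Q ≤ P.e := hm2.2.1
  have hPe := S.core_le P hP
  have hlt := S.core_lt Q hQ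
  -- the scale of `P` is larger
  have hi : Q.i < P.i := by
    by_contra hi
    have h1 := S.core_len P hP
    have h2 : (csm S.g + 8) * S.h P.i ≤ (csm S.g + 8) * S.h Q.i :=
      Nat.mul_le_mul_left _ (S.h_mono (not_lt.mp hi))
    have h3 : P.e ≤ P.s + (csm S.g + 8) * S.h P.i := h1
    omega
  refine hv4 P hP hi ⟨?_, ?_, ?_⟩
  · have h1 : S.lev P.s ≤ S.lev (S.zs Q) := S.lev_mono (by omega) (by omega)
    have h2 : S.lev (S.zs Q) ≤ v.2.val := by
      rcases hv2 with h2 | h2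
      · unfold zs
        rw [if_pos h2, S.lev_zero]
        omega
      · exact h2.le
    omega
  · have h1 : S.lev (S.ze Q) ≤ S.lev P.e := S.lev_mono (by omega) (by omega)
    have h2 : v.2.val ≤ S.lev (S.ze Q) := by
      rcases hv3 with h2 | h2
      · unfold ze
        rw [if_pos h2, S.lev_m]
        have := v.2.isLt
        omega
      · exact h2.le
    omega
  · have h1 : AgOut (S.lev P.s) (S.lev P.e) (Y k) P.b := hm.2.2
    have h2 : AgOut (S.lev P.s) (S.lev P.e) (Y k) w :=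
      (hY2 k hk le_rfl).1.mono (S.lev_mono hs (by omega)) (S.lev_mono he hPe)
    have h3 : AgOut (S.lev P.s) (S.lev P.e) w Q.b :=
      AgOut.mono (S.lev_mono (by omega) (by omega)) (S.lev_mono (by omega) hPe) hw
    have h4 : AgOut (S.lev P.s) (S.lev P.e) v.1 Q.b :=
      AgOut.mono (S.lev_mono (by omega) (by omega)) (S.lev_mono (by omega) hPe) hv1
    exact ((h4.trans h3.symm).trans h2.symm).trans h1

/-- changing one role bit -/
theorem InR_step {Q : Core n} (hQ : Q ∈ S.cores) {w w' x v : Rw n} (hx : S.InR Q w x) {j : ℕ}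
    (hj : j < S.nb Q) (hw : ∀ i : Fin n, i.val ≠ S.lev (S.zs Q) + j → w' i = w i)
    (h1 : bit v (S.rb (S.tw Q + j)) = bit w' (S.lev (S.zs Q) + j))
    (h2 : bit v (S.sb (S.tw Q + j)) = decide (S.tw Q + j = S.mkd Q)) :
    S.InR Q w' (wr (S.lev (S.tw Q + j)) (S.lev (S.tw Q + j + 1)) x v) := by
  have ha := S.zone_arith hQ
  obtain ⟨g1, g2, g3⟩ := hx
  have hlt := S.core_lt Q hQ
  have hib : S.ib Q ≤ S.m := ha.2.2.2.2.2.1
  have hd : S.tw Q + j < S.m := by omega
  have hwb : ∀ i, i ≠ S.lev (S.zs Q) + j → bit w' i = bit w i := by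
    intro i hi
    by_cases hin : i < n
    · rw [bit_of_lt _ hin, bit_of_lt _ hin]
      exact hw ⟨i, hin⟩ hi
    · rw [bit_of_ge _ (by omega), bit_of_ge _ (by omega)]
  refine ⟨?_, ?_, ?_⟩
  · have k1 := agOut_wr (p := S.lev (S.tw Q + j)) (q := S.lev (S.tw Q + j + 1)) x v
    have k2 : AgOut (S.lev (S.it Q)) (S.lev (S.ib Q)) x w := g1
    have k3 : AgOut (S.lev (S.it Q)) (S.lev (S.ib Q)) w w' := by
      intro i hi
      refine (hw i ?_).symm
      have k4 : S.lev (S.it Q) ≤ S.lev (S.zs Q) := S.lev_mono (by omega) (by omega)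
      have k5 : S.lev (S.ze Q) ≤ S.lev (S.ib Q) := S.lev_mono (by omega) (by omega)
      unfold nb at hj
      omega
    exact ((k1.mono (S.lev_mono (by omega) (by omega)) (S.lev_mono (by omega) (by omega))).trans
      k2).trans k3
  · intro d hd1 hd2
    by_cases hdj : d = S.tw Q + j
    · subst hdj
      have := S.sb_mem hd
      rw [bit_wr, if_pos ⟨by omega, by omega⟩, h2]
    · rw [bit_wr, if_neg, g2 d hd1 hd2]
      have := S.sb_out (p := S.tw Q + j) (q := S.tw Q + j + 1) (d := d) (by omega) (by omega)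
        (by omega) (by omega)
      omega
  · intro i hi
    by_cases hij : i = j
    · subst hij
      have := S.rb_mem hd
      rw [bit_wr, if_pos ⟨by omega, by omega⟩, h1]
    · rw [bit_wr, if_neg, g3 i hi, hwb _ (by omega)]
      have := S.rb_out (p := S.tw Q + j) (q := S.tw Q + j + 1) (d := S.tw Q + i) (by omega)
        (by omega) (by omega) (by omega)
      omega

/-- T-copies of neighbouring roles are neighbours -/
theorem nbr_R {Q : Core n} (hQ : Q ∈ S.cores) {v u : Node n} (hvu : (butterfly n).Adj u v)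
    (hv : S.inZ Q v.1) (hu : S.inZ Q u.1) (hv1 : S.lev (S.zs Q) ≤ v.2.val)
    (hv2 : v.2.val ≤ S.lev (S.ze Q)) (hu1 : S.lev (S.zs Q) ≤ u.2.val)
    (hu2 : u.2.val ≤ S.lev (S.ze Q)) {x : Rw n} (hx : S.InR Q v.1 x)
    (hfree : S.free x (S.tl Q v.2.val)) :
    ∃ y, S.InR Q u.1 y ∧ S.free y (S.tl Q u.2.val) ∧
      Near (butterfly n) S.F (2 * S.g) (nd y (S.lev (S.tl Q u.2.val)))
        (nd x (S.lev (S.tl Q v.2.val))) := by
  have ha := S.zone_arith hQ
  rcases hvu with hvu | hvu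
  · -- `v` is below `u`: cross the digit `tl u` upwards
    obtain ⟨h1, h2⟩ := hvu
    obtain ⟨j, hj⟩ : ∃ j, j = u.2.val - S.lev (S.zs Q) := ⟨_, rfl⟩
    have hjn : j < S.nb Q := by
      unfold nb
      omega
    have e1 : S.tl Q u.2.val = S.tw Q + j := by
      unfold tl
      rw [hj]
    have e2 : S.tl Q v.2.val = S.tw Q + j + 1 := by
      unfold tl
      omega
    rw [e2] at hfree
    rw [e1, e2]
    obtain ⟨z, g1, g2, g3, _⟩ := S.greedy_up x x (S.tw Q + j) (by omega)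
      (bit u.1 (S.lev (S.zs Q) + j)) (decide (S.tw Q + j = S.mkd Q))
    have hy := S.InR_step hQ hx hjn (w' := u.1) (v := z) (by
      intro i hi
      rw [h2 i (by omega)]) g1 g2
    have hfy : S.free (wr (S.lev (S.tw Q + j)) (S.lev (S.tw Q + j + 1)) x z) (S.tw Q + j) :=
      fun P hP hm => hfree P hP (g3 P hP hm)
    exact ⟨_, hy, hfy, S.near_cross (by omega) hfy hfree (agOut_wr x z)⟩
  · -- `u` is below `v`: cross the digit `tl v` downwards
    obtain ⟨h1, h2⟩ := hvu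
    obtain ⟨j, hj⟩ : ∃ j, j = v.2.val - S.lev (S.zs Q) := ⟨_, rfl⟩
    have hjn : j < S.nb Q := by
      unfold nb
      omega
    have e1 : S.tl Q v.2.val = S.tw Q + j := by
      unfold tl
      rw [hj]
    have e2 : S.tl Q u.2.val = S.tw Q + j + 1 := by
      unfold tl
      omega
    rw [e1] at hfree
    rw [e1, e2]
    obtain ⟨z, g1, g2, g3, _⟩ := S.greedy_down x x (S.tw Q + j) (by omega)
      (bit u.1 (S.lev (S.zs Q) + j)) (decide (S.tw Q + j = S.mkd Q))
    have hy := S.InR_step hQ hx hjn (w' := u.1) (v := z) (by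
      intro i hi
      exact h2 i (by omega)) g1 g2
    have hfy : S.free (wr (S.lev (S.tw Q + j)) (S.lev (S.tw Q + j + 1)) x z) (S.tw Q + j + 1) :=
      fun P hP hm => hfree P hP (g3 P hP hm)
    exact ⟨_, hy, hfy, (S.near_cross (by omega) hfree hfy (agOut_wr x z).symm).symm⟩

end Sys

end Pool.Agent.Bfly
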